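import Pool.Agent.Y404.GccBounds

set_option autoImplicit false

namespace Pool.Agent.Results.MP_23961f_co.DegreeGap

open Pool.Agent.Y404.GccSap Pool.Agent.Y404.GccBounds

/-- `A` is a real positive semidefinite matrix with graph `G` having the Strong Arnold Property. -/
def IsNuMatrix {n : ℕ} (G : SimpleGraph (Fin n)) (A : Matrix (Fin n) (Fin n) ℝ) : Prop :=
  A.PosSemidef ∧ (∀ i j : Fin n, i ≠ j → (A i j ≠ 0 ↔ G.Adj i j)) ∧
    ∀ X : Matrix (Fin n) (Fin n) ℝ, X.IsSymm →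
      (∀ i j : Fin n, (i = j ∨ G.Adj i j) → X i j = 0) → A * X = 0 → X = 0

/-- The parameter `ν(G)`: the largest nullity `n - rank A` over the matrices of `IsNuMatrix`. -/
noncomputable def nu {n : ℕ} (G : SimpleGraph (Fin n)) : ℕ :=
  sSup {k : ℕ | ∃ A, IsNuMatrix G A ∧ k = n - A.rank}

theorem le_nu {n : ℕ} {G : SimpleGraph (Fin n)} {r : ℕ} (h : HasSap G r) : n ≤ nu G + r := by
  obtain ⟨A, h1, h2, h3, h4⟩ := h
  have hb : BddAbove {k : ℕ | ∃ A, IsNuMatrix G A ∧ k = n - A.rank} := by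
    refine ⟨n, ?_⟩
    rintro k ⟨A, _, rfl⟩
    omega
  have h5 : n - A.rank ≤ nu G := le_csSup hb ⟨A, ⟨h1, h2, h3⟩, rfl⟩
  omega

/-- `ν(G) + ν(Ḡ) ≥ n - 1 - (Δ(G) - δ(G))`; in particular `ν(G) + ν(Ḡ) ≥ n - 2` whenever the
vertex degrees of `G` differ by at most one. -/
theorem result (n : ℕ) (hn : 1 ≤ n) (G : SimpleGraph (Fin n)) [DecidableRel G.Adj] :
    n + G.minDegree ≤ nu G + nu Gᶜ + G.maxDegree + 1 := by
  classical
  have : Nonempty (Fin n) := ⟨⟨0, hn⟩⟩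
  have h1 := le_nu (sap_delta G)
  have h2 := le_nu (sap_delta Gᶜ)
  have h3 := minDegree_compl G
  have h4 : G.minDegree < Fintype.card (Fin n) := G.minDegree_lt_card
  have h5 : Gᶜ.minDegree < Fintype.card (Fin n) := Gᶜ.minDegree_lt_card
  rw [Fintype.card_fin] at h1 h2 h3 h4 h5
  have e1 : ∀ (i1 i2 : DecidableRel G.Adj), @SimpleGraph.minDegree (Fin n) G _ i1 =
      @SimpleGraph.minDegree (Fin n) G _ i2 := fun i1 i2 => by
    have : i1 = i2 := Subsingleton.elim _ _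
    subst this
    rfl
  have e2 : ∀ (i1 i2 : DecidableRel Gᶜ.Adj), @SimpleGraph.minDegree (Fin n) Gᶜ _ i1 =
      @SimpleGraph.minDegree (Fin n) Gᶜ _ i2 := fun i1 i2 => by
    have : i1 = i2 := Subsingleton.elim _ _
    subst this
    rfl
  have h1' : n ≤ nu G + (n - G.minDegree) := by
    refine h1.trans (le_of_eq ?_)
    congr 2
    exact e1 _ _
  have h2' : n ≤ nu Gᶜ + (n - Gᶜ.minDegree) := by
    refine h2.trans (le_of_eq ?_)
    congr 2
    exact e2 _ _
  omega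

end Pool.Agent.Results.MP_23961f_co.DegreeGap
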