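import Pool.Agent.Y404.GccBounds

set_option autoImplicit false

namespace Pool.Agent.Results.MP_23961f_co.TwoThirds

open Pool.Agent.Y404.GccSap Pool.Agent.Y404.GccBounds

/-- `A` is a real positive semidefinite matrix with graph `G` having the Strong Arnold Property. -/
def IsNuMatrix {n : ℕ} (G : SimpleGraph (Fin n)) (A : Matrix (Fin n) (Fin n) ℝ) : Prop :=
  A.PosSemidef ∧ (∀ i j : Fin n, i ≠ j → (A i j ≠ 0 ↔ G.Adj i j)) ∧
    ∀ X : Matrix (Fin n) (Fin n) ℝ, X.IsSymm →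
      (∀ i j : Fin n, (i = j ∨ G.Adj i j) → X i j = 0) → A * X = 0 → X = 0

/-- The parameter `ν(G)`: the largest nullity `n - rank A` over the matrices of `IsNuMatrix`. -/
noncomputable def nu {n : ℕ} (G : SimpleGraph (Fin n)) : ℕ :=
  sSup {k : ℕ | ∃ A, IsNuMatrix G A ∧ k = n - A.rank}

theorem le_nu {n : ℕ} {G : SimpleGraph (Fin n)} {r : ℕ} (h : HasSap G r) : n ≤ nu G + r := by
  obtain ⟨A, h1, h2, h3, h4⟩ := h
  have hb : BddAbove {k : ℕ | ∃ A, IsNuMatrix G A ∧ k = n - A.rank} := by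
    refine ⟨n, ?_⟩
    rintro k ⟨A, _, rfl⟩
    omega
  have h5 : n - A.rank ≤ nu G := le_csSup hb ⟨A, ⟨h1, h2, h3⟩, rfl⟩
  omega

theorem aux {n : ℕ} (G : SimpleGraph (Fin n)) : n ≤ 2 * nu G + nu Gᶜ + 1 := by
  obtain ⟨a, h0, h1, h2⟩ := sap_pair G
  rw [Fintype.card_fin] at h0 h1
  have e1 := le_nu h1
  have e2 := le_nu h2
  omega

/-- `2 ν(G) + ν(Ḡ) ≥ n - 1` and `ν(G) + ν(Ḡ) ≥ (2n - 2)/3` for every graph on `n` vertices. -/
theorem result (n : ℕ) (G : SimpleGraph (Fin n)) :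
    n ≤ 2 * nu G + nu Gᶜ + 1 ∧ 2 * n ≤ 3 * (nu G + nu Gᶜ) + 2 := by
  have h1 := aux G
  have h2 := aux Gᶜ
  rw [compl_compl] at h2
  exact ⟨h1, by omega⟩

end Pool.Agent.Results.MP_23961f_co.TwoThirds
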